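import Mathlib

/-!
# Heights of values of rational functions over `ℤ`

For coprime `A, B ∈ ℤ[X]` and `d = max (deg A, deg B)` the integers `b ^ d A (a / b)` and
`b ^ d B (a / b)`, `a / b` in lowest terms, have a bounded common divisor, and the larger one is at
least a constant times `max (|a|, |b|) ^ d`.
-/

set_option autoImplicit false

namespace Pool.Agent.H574.Thin

open Polynomial Finset

/-- the value at `(a, b)` of the form of degree `d` attached to `P` -/
noncomputable def hom (P : ℤ[X]) (d : ℕ) (a b : ℤ) : ℤ :=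
  ∑ i ∈ range (d + 1), P.coeff i * a ^ i * b ^ (d - i)

/-- the multiplicative height of a rational number -/
def ht (t : ℚ) : ℕ := max t.num.natAbs t.den

theorem one_le_ht (t : ℚ) : 1 ≤ ht t := le_max_of_le_right t.den_pos

theorem hom_eq {P : ℤ[X]} {d : ℕ} (hd : P.natDegree ≤ d) (a : ℤ) {b : ℤ} (hb : b ≠ 0) :
    (hom P d a b : ℚ) = (b : ℚ) ^ d * aeval ((a : ℚ) / b) P := by
  have hb' : (b : ℚ) ≠ 0 := by exact_mod_cast hb
  rw [aeval_eq_sum_range' (Nat.lt_succ_of_le hd), hom, mul_sum]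
  push_cast
  refine sum_congr rfl fun i hi => ?_
  have hi' : i ≤ d := Nat.lt_succ_iff.1 (mem_range.1 hi)
  rw [div_pow, zsmul_eq_mul]
  have h1 : (b : ℚ) ^ d = (b : ℚ) ^ (d - i) * (b : ℚ) ^ i := by
    rw [← pow_add, Nat.sub_add_cancel hi']
  rw [h1]
  field_simp

theorem hom_reflect (P : ℤ[X]) (d : ℕ) (a b : ℤ) :
    hom (P.reflect d) d b a = hom P d a b := by
  rw [hom, hom, ← sum_range_reflect]
  refine sum_congr rfl fun i hi => ?_
  have hi' : i ≤ d := Nat.lt_succ_iff.1 (mem_range.1 hi)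
  have h1 : d + 1 - 1 - i = d - i := by omega
  rw [h1, coeff_reflect, revAt_le (by omega)]
  have h2 : d - (d - i) = i := by omega
  rw [h2]
  ring

theorem abs_hom_le (P : ℤ[X]) (d : ℕ) :
    ∃ C : ℝ, 0 < C ∧ ∀ (a b : ℤ) (H : ℝ), |(a : ℝ)| ≤ H → |(b : ℝ)| ≤ H →
      |(hom P d a b : ℝ)| ≤ C * H ^ d := by
  refine ⟨∑ i ∈ range (d + 1), |(P.coeff i : ℝ)| + 1, by positivity, fun a b H ha hb => ?_⟩
  have hH : 0 ≤ H := (abs_nonneg _).trans ha
  have h1 : |(hom P d a b : ℝ)| ≤ (∑ i ∈ range (d + 1), |(P.coeff i : ℝ)|) * H ^ d := by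
    rw [hom, sum_mul]
    push_cast
    refine (abs_sum_le_sum_abs _ _).trans (sum_le_sum fun i hi => ?_)
    have hi' : i ≤ d := Nat.lt_succ_iff.1 (mem_range.1 hi)
    rw [abs_mul, abs_mul, abs_pow, abs_pow, mul_assoc]
    refine mul_le_mul_of_nonneg_left ?_ (abs_nonneg _)
    calc |(a : ℝ)| ^ i * |(b : ℝ)| ^ (d - i) ≤ H ^ i * H ^ (d - i) := by gcongr
      _ = H ^ d := by rw [← pow_add]; congr 1; omega
  have h2 : 0 ≤ H ^ d := by positivity
  nlinarith

/-- integral Bezout identity -/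
theorem bezout {A B : ℤ[X]}
    (h : IsCoprime (A.map (Int.castRingHom ℚ)) (B.map (Int.castRingHom ℚ))) :
    ∃ (U V : ℤ[X]) (R : ℤ), R ≠ 0 ∧ U * A + V * B = C R := by
  obtain ⟨u, v, huv⟩ := h
  obtain ⟨m, hm1, hm⟩ := IsLocalization.integerNormalization_spec (nonZeroDivisors ℤ) u
  obtain ⟨n, hn1, hn⟩ := IsLocalization.integerNormalization_spec (nonZeroDivisors ℤ) v
  have hm0 : (m : ℤ) ≠ 0 := nonZeroDivisors.ne_zero hm1
  have hn0 : (n : ℤ) ≠ 0 := nonZeroDivisors.ne_zero hn1
  obtain ⟨U, hU⟩ : ∃ U, U = IsLocalization.integerNormalization (nonZeroDivisors ℤ) u := ⟨_, rfl⟩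
  obtain ⟨V, hV⟩ : ∃ V, V = IsLocalization.integerNormalization (nonZeroDivisors ℤ) v := ⟨_, rfl⟩
  rw [← hU] at hm
  rw [← hV] at hn
  refine ⟨C (n : ℤ) * U, C (m : ℤ) * V, m * n, mul_ne_zero hm0 hn0, ?_⟩
  apply Polynomial.map_injective (Int.castRingHom ℚ) (RingHom.injective_int _)
  have e1 : algebraMap ℤ ℚ = Int.castRingHom ℚ := rfl
  rw [e1] at hm hn
  have e2 : ∀ (z : ℤ) (p : ℚ[X]), z • p = C ((Int.castRingHom ℚ) z) * p := by
    intro z p
    rw [zsmul_eq_mul]
    simp
  rw [e2] at hm hn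
  simp only [Polynomial.map_add, Polynomial.map_mul, Polynomial.map_C, hm, hn]
  calc _ = (C ((Int.castRingHom ℚ) (m : ℤ)) * C ((Int.castRingHom ℚ) (n : ℤ))) *
        (u * A.map (Int.castRingHom ℚ) + v * B.map (Int.castRingHom ℚ)) := by ring
    _ = _ := by rw [huv, mul_one, ← C_mul, ← map_mul]

/-- the form version of the Bezout identity -/
theorem bezout_hom {A B : ℤ[X]} {d : ℕ} (hA : A.natDegree ≤ d) (hB : B.natDegree ≤ d)
    (h : IsCoprime (A.map (Int.castRingHom ℚ)) (B.map (Int.castRingHom ℚ))) :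
    ∃ (R : ℤ) (e : ℕ) (U V : ℤ[X]), R ≠ 0 ∧ ∀ a b : ℤ, b ≠ 0 →
      hom U e a b * hom A d a b + hom V e a b * hom B d a b = R * b ^ (d + e) := by
  obtain ⟨U, V, R, hR, huv⟩ := bezout h
  refine ⟨R, max U.natDegree V.natDegree, U, V, hR, fun a b hb => ?_⟩
  have h1 : ((hom U (max U.natDegree V.natDegree) a b * hom A d a b +
      hom V (max U.natDegree V.natDegree) a b * hom B d a b : ℤ) : ℚ) =
      ((R * b ^ (d + max U.natDegree V.natDegree) : ℤ) : ℚ) := by
    push_cast
    rw [hom_eq (le_max_left _ _) a hb, hom_eq (le_max_right _ _) a hb, hom_eq hA a hb,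
      hom_eq hB a hb]
    have h2 := congrArg (aeval ((a : ℚ) / b)) huv
    rw [map_add, map_mul, map_mul, aeval_C] at h2
    have h3 : (algebraMap ℤ ℚ) R = (R : ℚ) := rfl
    rw [h3] at h2
    rw [← h2, pow_add]
    ring
  exact_mod_cast h1

theorem coprime_reflect {A B : ℤ[X]} {d : ℕ} (hA : A.natDegree ≤ d) (hB : B.natDegree ≤ d)
    (hd : A.coeff d ≠ 0 ∨ B.coeff d ≠ 0)
    (h : IsCoprime (A.map (Int.castRingHom ℚ)) (B.map (Int.castRingHom ℚ))) :
    IsCoprime ((A.reflect d).map (Int.castRingHom ℚ)) ((B.reflect d).map (Int.castRingHom ℚ)) := by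
  have hA' : (A.map (Int.castRingHom ℚ)).natDegree ≤ d := natDegree_map_le.trans hA
  have hB' : (B.map (Int.castRingHom ℚ)).natDegree ≤ d := natDegree_map_le.trans hB
  have hd' : (A.map (Int.castRingHom ℚ)).coeff d ≠ 0 ∨ (B.map (Int.castRingHom ℚ)).coeff d ≠ 0 := by
    rcases hd with h1 | h1
    · left; rw [coeff_map]; simpa using h1
    · right; rw [coeff_map]; simpa using h1
  rw [← reflect_map, ← reflect_map]
  generalize A.map (Int.castRingHom ℚ) = P at *
  generalize B.map (Int.castRingHom ℚ) = Q at *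
  obtain ⟨u, v, huv⟩ := h
  obtain ⟨e, he⟩ : ∃ e, e = max u.natDegree v.natDegree := ⟨_, rfl⟩
  have h1 : reflect e u * reflect d P + reflect e v * reflect d Q = X ^ (e + d) := by
    rw [← reflect_mul u P (he ▸ le_max_left _ _) hA', ← reflect_mul v Q (he ▸ le_max_right _ _) hB',
      ← reflect_add, huv, reflect_one]
  refine isCoprime_of_irreducible_dvd ?_ ?_
  · rintro ⟨h2, h3⟩
    rw [h2, h3] at h1
    simp at h1
    exact pow_ne_zero _ X_ne_zero h1.symm
  · intro p hp h2 h3
    have h4 : p ∣ X ^ (e + d) := by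
      rw [← h1]
      exact dvd_add (dvd_mul_of_dvd_right h2 _) (dvd_mul_of_dvd_right h3 _)
    have h5 : p ∣ X := hp.prime.dvd_of_dvd_pow h4
    have h6 : X ∣ p := (hp.associated_of_dvd irreducible_X h5).symm.dvd
    have h7 := X_dvd_iff.1 (h6.trans h2)
    have h8 := X_dvd_iff.1 (h6.trans h3)
    rw [coeff_reflect, revAt_le (Nat.zero_le _), Nat.sub_zero] at h7 h8
    rcases hd' with h9 | h9
    · exact h9 h7
    · exact h9 h8

/-- **The height of the value of a rational function** -/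
theorem height_le {A B : ℤ[X]} {d : ℕ} (hA : A.natDegree ≤ d) (hB : B.natDegree ≤ d)
    (hd : A.coeff d ≠ 0 ∨ B.coeff d ≠ 0)
    (h : IsCoprime (A.map (Int.castRingHom ℚ)) (B.map (Int.castRingHom ℚ))) :
    ∃ (R : ℤ) (c : ℝ), R ≠ 0 ∧ 0 < c ∧ ∀ t : ℚ,
      (∀ g : ℤ, g ∣ hom A d t.num t.den → g ∣ hom B d t.num t.den → g ∣ R) ∧
      c * (ht t : ℝ) ^ d ≤ max |(hom A d t.num t.den : ℝ)| |(hom B d t.num t.den : ℝ)| := by
  have hAr : (A.reflect d).natDegree ≤ d := by
    refine (natDegree_reflect_le).trans ?_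
    simp [hA]
  have hBr : (B.reflect d).natDegree ≤ d := by
    refine (natDegree_reflect_le).trans ?_
    simp [hB]
  obtain ⟨R, e, U, V, hR, h1⟩ := bezout_hom hA hB h
  obtain ⟨R', e', U', V', hR', h1'⟩ := bezout_hom hAr hBr (coprime_reflect hA hB hd h)
  obtain ⟨CU, hCU, hU⟩ := abs_hom_le U e
  obtain ⟨CV, hCV, hV⟩ := abs_hom_le V e
  obtain ⟨CU', hCU', hU'⟩ := abs_hom_le U' e'
  obtain ⟨CV', hCV', hV'⟩ := abs_hom_le V' e'
  have hRR : (1 : ℝ) ≤ |(R : ℝ)| := by
    have : (1 : ℤ) ≤ |R| := Int.one_le_abs hR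
    exact_mod_cast this
  have hRR' : (1 : ℝ) ≤ |(R' : ℝ)| := by
    have : (1 : ℤ) ≤ |R'| := Int.one_le_abs hR'
    exact_mod_cast this
  -- the basic size estimate
  have key : ∀ (r u v m n b H M cu cv : ℝ) (e : ℕ), 1 ≤ |r| → 0 < cu → 0 < cv → 0 < H →
      u * m + v * n = r * b ^ (d + e) → |b| = H → |u| ≤ cu * H ^ e → |v| ≤ cv * H ^ e →
      |m| ≤ M → |n| ≤ M → H ^ d ≤ (cu + cv) * M := by
    intro r u v m n b H M cu cv e hr hcu hcv hH heq hb hu hv hm hn
    have hM : 0 ≤ M := (abs_nonneg _).trans hm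
    have h2 : H ^ (d + e) ≤ (cu + cv) * M * H ^ e := by
      calc H ^ (d + e) ≤ |r| * H ^ (d + e) := le_mul_of_one_le_left (by positivity) hr
        _ = |r * b ^ (d + e)| := by rw [abs_mul, abs_pow, hb]
        _ = |u * m + v * n| := by rw [heq]
        _ ≤ |u| * |m| + |v| * |n| := by
          refine (abs_add_le _ _).trans ?_
          rw [abs_mul, abs_mul]
        _ ≤ cu * H ^ e * M + cv * H ^ e * M := by gcongr
        _ = _ := by ring
    rw [pow_add] at h2
    exact le_of_mul_le_mul_right h2 (by positivity)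
  refine ⟨R * R', min (1 / (CU + CV)) (1 / (CU' + CV')), mul_ne_zero hR hR', by positivity, ?_⟩
  intro t
  have hb0 : (t.den : ℤ) ≠ 0 := by exact_mod_cast t.den_ne_zero
  have hcop : IsCoprime t.num (t.den : ℤ) := by
    rw [Int.isCoprime_iff_nat_coprime]
    simpa using t.reduced
  constructor
  · intro g hgA hgB
    have h2 : g ∣ R * (t.den : ℤ) ^ (d + e) := by
      rw [← h1 t.num t.den hb0]
      exact dvd_add (dvd_mul_of_dvd_right hgA _) (dvd_mul_of_dvd_right hgB _)
    rcases eq_or_ne t.num 0 with h0 | h0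
    · have : t.den = 1 := by
        have := t.reduced
        rw [h0] at this
        simpa using this
      rw [this] at h2
      simp at h2
      exact dvd_mul_of_dvd_left h2 _
    · have h3 : g ∣ R' * t.num ^ (d + e') := by
        rw [← h1' t.den t.num h0, hom_reflect, hom_reflect]
        exact dvd_add (dvd_mul_of_dvd_right hgA _) (dvd_mul_of_dvd_right hgB _)
      obtain ⟨p, q, hpq⟩ := (hcop.pow (m := d + e') (n := d + e))
      have h4 : R * R' = p * R * (R' * t.num ^ (d + e')) + q * R' * (R * (t.den : ℤ) ^ (d + e)) := by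
        linear_combination (-(R * R')) * hpq
      rw [h4]
      exact dvd_add (dvd_mul_of_dvd_right h3 _) (dvd_mul_of_dvd_right h2 _)
  · obtain ⟨M, hM⟩ : ∃ M, M = max |(hom A d t.num t.den : ℝ)| |(hom B d t.num t.den : ℝ)| := ⟨_, rfl⟩
    rw [← hM]
    have hMA : |(hom A d t.num t.den : ℝ)| ≤ M := by rw [hM]; exact le_max_left _ _
    have hMB : |(hom B d t.num t.den : ℝ)| ≤ M := by rw [hM]; exact le_max_right _ _
    have hM0 : 0 ≤ M := (abs_nonneg _).trans hMA
    have hH1 : (1 : ℝ) ≤ ht t := by exact_mod_cast one_le_ht t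
    have hna : |(t.num : ℝ)| ≤ ht t := by
      have h2 : t.num.natAbs ≤ ht t := le_max_left _ _
      have h3 : ((t.num.natAbs : ℕ) : ℝ) = |(t.num : ℝ)| := by
        rw [Nat.cast_natAbs]; push_cast; rfl
      rw [← h3]; exact_mod_cast h2
    have hnb : |((t.den : ℤ) : ℝ)| ≤ ht t := by
      have h2 : t.den ≤ ht t := le_max_right _ _
      rw [Int.cast_natCast, abs_of_nonneg (by positivity)]
      exact_mod_cast h2
    rcases le_total t.num.natAbs t.den with hle | hle
    · have h2 : ht t = t.den := max_eq_right hle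
      have h3 := key R (hom U e t.num t.den) (hom V e t.num t.den) (hom A d t.num t.den)
        (hom B d t.num t.den) ((t.den : ℤ) : ℝ) (ht t) M CU CV e hRR hCU hCV (by linarith)
        (by exact_mod_cast h1 t.num t.den hb0)
        (by rw [h2, Int.cast_natCast, abs_of_nonneg (by positivity)])
        (hU _ _ _ hna hnb) (hV _ _ _ hna hnb) hMA hMB
      calc min (1 / (CU + CV)) (1 / (CU' + CV')) * (ht t : ℝ) ^ d
          ≤ 1 / (CU + CV) * ((CU + CV) * M) :=
            mul_le_mul (min_le_left _ _) h3 (by positivity) (by positivity)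
        _ = M := by field_simp
    · have h0 : t.num ≠ 0 := by
        intro h0
        rw [h0] at hle
        have := t.den_pos
        simp at hle
      have h2 : ht t = t.num.natAbs := max_eq_left hle
      have h3 := key R' (hom U' e' t.den t.num) (hom V' e' t.den t.num) (hom A d t.num t.den)
        (hom B d t.num t.den) (t.num : ℝ) (ht t) M CU' CV' e' hRR' hCU' hCV' (by linarith)
        (by
          have := h1' t.den t.num h0
          rw [hom_reflect, hom_reflect] at this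
          exact_mod_cast this)
        (by rw [h2, Nat.cast_natAbs]; push_cast; rfl)
        (hU' _ _ _ hnb hna) (hV' _ _ _ hnb hna) hMA hMB
      calc min (1 / (CU + CV)) (1 / (CU' + CV')) * (ht t : ℝ) ^ d
          ≤ 1 / (CU' + CV') * ((CU' + CV') * M) :=
            mul_le_mul (min_le_right _ _) h3 (by positivity) (by positivity)
        _ = M := by field_simp

end Pool.Agent.H574.Thin
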