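import Mathlib
import Pool.Graph.R_seed8.W472.AC.RothThm
import Pool.Agent.H574.Thin.Height

/-!
# The values of a rational function at rational points near its poles

`A, B ∈ ℤ[X]`, `deg A ≤ deg B + κ`, the multiplicity of the rational roots of `B` is at most `κ`, the
multiplicity of the irrational real roots of `B` is at most `κ / 2`. Then
`|A (t)| ≤ C H (t) ^ (κ + ε) |B (t)|` for all rational `t`.
-/

set_option autoImplicit false

namespace Pool.Agent.H574.Thin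

open Polynomial Finset Filter

/-- far from the roots -/
theorem far_top {A B : ℝ[X]} (hB : B ≠ 0) {κ : ℕ} (hdeg : A.natDegree ≤ B.natDegree + κ) :
    ∃ (C R : ℝ), 0 < C ∧ 0 < R ∧ ∀ t : ℝ, R ≤ t → |A.eval t| ≤ C * |t| ^ κ * |B.eval t| := by
  have h1 : A.degree ≤ (B * X ^ κ).degree := by
    rcases eq_or_ne A 0 with h0 | h0
    · rw [h0, degree_zero]; exact bot_le
    · rw [degree_eq_natDegree h0, degree_eq_natDegree (mul_ne_zero hB (pow_ne_zero _ X_ne_zero)),
        natDegree_mul hB (pow_ne_zero _ X_ne_zero), natDegree_X_pow]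
      exact_mod_cast hdeg
  obtain ⟨C, hC⟩ := (Polynomial.isBigO_atTop_of_degree_le A (B * X ^ κ) h1).bound
  obtain ⟨R, hR⟩ := eventually_atTop.1 hC
  refine ⟨max C 1, max R 1, by positivity, by positivity, fun t ht => ?_⟩
  have h2 := hR t ((le_max_left _ _).trans ht)
  rw [Real.norm_eq_abs, Real.norm_eq_abs, eval_mul, eval_pow, eval_X, abs_mul, abs_pow] at h2
  calc |A.eval t| ≤ C * (|B.eval t| * |t| ^ κ) := h2
    _ ≤ max C 1 * (|B.eval t| * |t| ^ κ) :=
      mul_le_mul_of_nonneg_right (le_max_left _ _) (by positivity)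
    _ = _ := by ring

theorem far {A B : ℝ[X]} (hB : B ≠ 0) {κ : ℕ} (hdeg : A.natDegree ≤ B.natDegree + κ)
    {δ : ℝ} (hδ : 0 < δ) :
    ∃ C : ℝ, 0 < C ∧ ∀ t : ℝ, (∀ α : ℝ, B.IsRoot α → δ ≤ |t - α|) →
      |A.eval t| ≤ C * (1 + |t|) ^ κ * |B.eval t| := by
  obtain ⟨C₁, R₁, hC₁, hR₁, h1⟩ := far_top hB hdeg
  have hcomp : ∀ P : ℝ[X], (P.comp (-X)).natDegree = P.natDegree := by
    intro P
    rw [natDegree_comp, natDegree_neg, natDegree_X, mul_one]
  have hB' : B.comp (-X) ≠ 0 := by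
    intro h0
    apply hB
    have : (B.comp (-X)).comp (-X) = B := by
      rw [comp_assoc]; simp
    rw [h0] at this
    simpa using this.symm
  obtain ⟨C₂, R₂, hC₂, hR₂, h2⟩ := far_top (A := A.comp (-X)) (κ := κ) hB'
    (by rw [hcomp, hcomp]; exact hdeg)
  obtain ⟨R, hR⟩ : ∃ R, R = max R₁ R₂ := ⟨_, rfl⟩
  obtain ⟨K, hK⟩ : ∃ K : Set ℝ, K = Set.Icc (-R) R ∩ {t | ∀ α : ℝ, B.IsRoot α → δ ≤ |t - α|} :=
    ⟨_, rfl⟩
  have hKc : IsCompact K := by
    rw [hK]
    refine isCompact_Icc.inter_right ?_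
    have e1 : {t : ℝ | ∀ α : ℝ, B.IsRoot α → δ ≤ |t - α|} =
        ⋂ α : ℝ, ⋂ _ : B.IsRoot α, {t : ℝ | δ ≤ |t - α|} := by
      ext t; simp
    rw [e1]
    exact isClosed_iInter fun α => isClosed_iInter fun _ =>
      isClosed_le continuous_const (by fun_prop)
  have hne : ∀ t ∈ K, B.eval t ≠ 0 := by
    intro t ht h0
    rw [hK] at ht
    have := ht.2 t h0
    simp at this
    linarith
  obtain ⟨C₃, hC₃⟩ := hKc.exists_bound_of_continuousOn (f := fun t => A.eval t / B.eval t)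
    (A.continuous.continuousOn.div B.continuous.continuousOn hne)
  refine ⟨max (max C₁ C₂) (max C₃ 1), by positivity, fun t ht => ?_⟩
  obtain ⟨C, hC⟩ : ∃ C, C = max (max C₁ C₂) (max C₃ 1) := ⟨_, rfl⟩
  have hc1 : C₁ ≤ C := hC ▸ (le_max_left _ _).trans (le_max_left _ _)
  have hc2 : C₂ ≤ C := hC ▸ (le_max_right _ _).trans (le_max_left _ _)
  have hc3 : C₃ ≤ C := hC ▸ (le_max_left _ _).trans (le_max_right _ _)
  rw [← hC]
  have hC0 : 0 < C := lt_of_lt_of_le hC₁ hc1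
  have ht1 : |t| ^ κ ≤ (1 + |t|) ^ κ := pow_le_pow_left₀ (abs_nonneg _) (by linarith) _
  rcases le_or_gt R t with hRt | hRt
  · refine (h1 t ((hR ▸ le_max_left _ _ : R₁ ≤ R).trans hRt)).trans ?_
    gcongr
  · rcases le_or_gt t (-R) with hRt' | hRt'
    · have h3 := h2 (-t) ((hR ▸ le_max_right _ _ : R₂ ≤ R).trans (by linarith))
      rw [eval_comp, eval_comp, eval_neg, eval_X, neg_neg, abs_neg] at h3
      refine h3.trans ?_
      gcongr
    · have htK : t ∈ K := by rw [hK]; exact ⟨⟨hRt'.le, hRt.le⟩, ht⟩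
      have h3 := hC₃ t htK
      rw [Real.norm_eq_abs, abs_div, div_le_iff₀ (abs_pos.2 (hne t htK))] at h3
      refine h3.trans ?_
      have h4 : (1 : ℝ) ≤ (1 + |t|) ^ κ := one_le_pow₀ (by linarith [abs_nonneg t])
      have h5 : C₃ * |B.eval t| ≤ C * |B.eval t| := mul_le_mul_of_nonneg_right hc3 (abs_nonneg _)
      have h6 : C * |B.eval t| ≤ C * |B.eval t| * (1 + |t|) ^ κ :=
        le_mul_of_one_le_right (by positivity) h4
      calc _ ≤ _ := h5
        _ ≤ _ := h6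
        _ = _ := by ring

/-- near a root -/
theorem near_root (A : ℝ[X]) {B : ℝ[X]} (hB : B ≠ 0) (α : ℝ) :
    ∃ δ C : ℝ, 0 < δ ∧ 0 < C ∧ ∀ t : ℝ, |t - α| < δ →
      |t - α| ^ (B.rootMultiplicity α) * |A.eval t| ≤ C * |B.eval t| := by
  obtain ⟨Q, hQ, hQd⟩ := exists_eq_pow_rootMultiplicity_mul_and_not_dvd B hB α
  have hQα : Q.eval α ≠ 0 := by
    intro h0
    exact hQd (dvd_iff_isRoot.2 h0)
  have h1 : ∀ᶠ t in nhds α, |Q.eval α| / 2 < |Q.eval t| := by
    have : Tendsto (fun t => |Q.eval t|) (nhds α) (nhds |Q.eval α|) :=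
      (Q.continuous.abs).tendsto α
    exact this.eventually_const_lt (by linarith [abs_pos.2 hQα])
  have h2 : ∀ᶠ t in nhds α, |A.eval t| < |A.eval α| + 1 := by
    have : Tendsto (fun t => |A.eval t|) (nhds α) (nhds |A.eval α|) :=
      (A.continuous.abs).tendsto α
    exact this.eventually_lt_const (by linarith)
  obtain ⟨δ, hδ, h3⟩ := Metric.eventually_nhds_iff.1 (h1.and h2)
  have hpos := abs_pos.2 hQα
  refine ⟨δ, (|A.eval α| + 1) / (|Q.eval α| / 2), hδ, by positivity, fun t ht => ?_⟩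
  obtain ⟨h4, h5⟩ := h3 (y := t) (by rwa [Real.dist_eq])
  have e1 : B.eval t = (t - α) ^ (B.rootMultiplicity α) * Q.eval t := by
    conv_lhs => rw [hQ]
    simp
  rw [e1, abs_mul, abs_pow]
  have h6 : |A.eval t| ≤ (|A.eval α| + 1) / (|Q.eval α| / 2) * |Q.eval t| := by
    rw [div_mul_eq_mul_div, le_div_iff₀ (by positivity)]
    exact mul_le_mul h5.le h4.le (by positivity) (by positivity)
  calc |t - α| ^ (B.rootMultiplicity α) * |A.eval t|
      ≤ |t - α| ^ (B.rootMultiplicity α) * ((|A.eval α| + 1) / (|Q.eval α| / 2) * |Q.eval t|) :=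
        mul_le_mul_of_nonneg_left h6 (by positivity)
    _ = _ := by ring

/-- rational approximations to a root -/
theorem root_approx {α : ℝ} (hα : IsAlgebraic ℚ α) (m κ : ℕ)
    (h1 : Irrational α → 2 * m ≤ κ) (h2 : ¬ Irrational α → m ≤ κ) {ε : ℝ} (hε : 0 < ε) :
    ∃ c : ℝ, 0 < c ∧ ∀ t : ℚ, (t : ℝ) ≠ α → c ≤ |(t : ℝ) - α| ^ m * (ht t : ℝ) ^ (κ + ε) := by
  by_cases hirr : Irrational α
  · have hm := h1 hirr
    obtain ⟨c, hc, h⟩ := Pool.Agent.W472.AC.roth α hα hirr (ε / (m + 1)) (by positivity)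
    refine ⟨c ^ m, by positivity, fun t _ => ?_⟩
    have hq := h t.den t.den_pos t.num
    have hd0 : (0 : ℝ) < t.den := by exact_mod_cast t.den_pos
    have hd1 : (1 : ℝ) ≤ t.den := by exact_mod_cast t.den_pos
    have hdH : (t.den : ℝ) ≤ ht t := by exact_mod_cast (le_max_right _ _ : t.den ≤ ht t)
    have hH1 : (1 : ℝ) ≤ ht t := hd1.trans hdH
    have e1 : |(t.den : ℝ) * α - t.num| = t.den * |(t : ℝ) - α| := by
      have : (t : ℝ) = t.num / t.den := by exact_mod_cast (Rat.num_div_den t).symm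
      have e2 : (t.den : ℝ) * α - t.num = -(t.den * ((t : ℝ) - α)) := by
        rw [this]; field_simp; ring
      rw [e2, abs_neg, abs_mul, abs_of_pos hd0]
    rw [e1] at hq
    have h3 : c ≤ |(t : ℝ) - α| * (ht t : ℝ) ^ (2 + ε / (m + 1)) := by
      calc c ≤ (t.den : ℝ) ^ (1 + ε / (m + 1)) * (t.den * |(t : ℝ) - α|) := hq
        _ = |(t : ℝ) - α| * ((t.den : ℝ) ^ (1 + ε / (m + 1)) * (t.den : ℝ) ^ (1 : ℝ)) := by
          rw [Real.rpow_one]; ring
        _ = |(t : ℝ) - α| * (t.den : ℝ) ^ (2 + ε / (m + 1)) := by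
          rw [← Real.rpow_add hd0]; congr 2; ring
        _ ≤ _ := mul_le_mul_of_nonneg_left
          (Real.rpow_le_rpow hd0.le hdH (by positivity)) (abs_nonneg _)
    have h4 := pow_le_pow_left₀ hc.le h3 m
    rw [mul_pow] at h4
    refine h4.trans (mul_le_mul_of_nonneg_left ?_ (by positivity))
    rw [← Real.rpow_natCast, ← Real.rpow_mul (by linarith)]
    refine Real.rpow_le_rpow_of_exponent_le hH1 ?_
    have h5 : (2 : ℝ) * m ≤ κ := by exact_mod_cast hm
    have h6 : ε / (m + 1) * m ≤ ε := by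
      rw [div_mul_eq_mul_div, div_le_iff₀ (by positivity)]
      nlinarith
    nlinarith
  · have hm := h2 hirr
    rw [Irrational, not_not] at hirr
    obtain ⟨r, rfl⟩ := hirr
    have hr0 : (0 : ℝ) < r.den := by exact_mod_cast r.den_pos
    refine ⟨(1 / r.den) ^ m, by positivity, fun t ht' => ?_⟩
    have hd0 : (0 : ℝ) < t.den := by exact_mod_cast t.den_pos
    have hd1 : (1 : ℝ) ≤ t.den := by exact_mod_cast t.den_pos
    have hdH : (t.den : ℝ) ≤ ht t := by exact_mod_cast (le_max_right _ _ : t.den ≤ ht t)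
    have hH1 : (1 : ℝ) ≤ ht t := hd1.trans hdH
    have hne : t.num * r.den - r.num * t.den ≠ 0 := by
      intro h0
      apply ht'
      have h3 : t = r := by
        rw [← Rat.num_div_den t, ← Rat.num_div_den r, div_eq_div_iff
          (by exact_mod_cast t.den_ne_zero) (by exact_mod_cast r.den_ne_zero)]
        exact_mod_cast (sub_eq_zero.1 h0)
      rw [h3]
    have h3 : (1 : ℝ) ≤ |((t.num * r.den - r.num * t.den : ℤ) : ℝ)| := by
      have := Int.one_le_abs hne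
      exact_mod_cast this
    have e1 : ((t.num * r.den - r.num * t.den : ℤ) : ℝ) = t.den * r.den * ((t : ℝ) - r) := by
      have e2 : (t : ℝ) = t.num / t.den := by exact_mod_cast (Rat.num_div_den t).symm
      have e3 : (r : ℝ) = r.num / r.den := by exact_mod_cast (Rat.num_div_den r).symm
      rw [e2, e3]; push_cast; field_simp
    rw [e1, abs_mul, abs_of_pos (by positivity)] at h3
    have h4 : 1 / (r.den : ℝ) ≤ |(t : ℝ) - r| * ht t := by
      rw [div_le_iff₀ hr0]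
      calc (1 : ℝ) ≤ t.den * r.den * |(t : ℝ) - r| := h3
        _ ≤ ht t * r.den * |(t : ℝ) - r| := by gcongr
        _ = _ := by ring
    have h5 := pow_le_pow_left₀ (by positivity) h4 m
    rw [mul_pow] at h5
    refine h5.trans (mul_le_mul_of_nonneg_left ?_ (by positivity))
    rw [← Real.rpow_natCast]
    refine Real.rpow_le_rpow_of_exponent_le hH1 ?_
    have : (m : ℝ) ≤ κ := by exact_mod_cast hm
    linarith

theorem min_finset (S : Finset ℝ) (f : ℝ → ℝ) (hf : ∀ α ∈ S, 0 < f α) :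
    ∃ δ : ℝ, 0 < δ ∧ ∀ α ∈ S, δ ≤ f α := by
  classical
  induction S using Finset.induction_on with
  | empty => exact ⟨1, one_pos, by simp⟩
  | insert a S ha ih =>
    obtain ⟨δ, hδ, h⟩ := ih fun α hα => hf α (mem_insert_of_mem hα)
    refine ⟨min δ (f a), lt_min hδ (hf a (mem_insert_self _ _)), fun α hα => ?_⟩
    rcases mem_insert.1 hα with rfl | hα
    · exact min_le_right _ _
    · exact (min_le_left _ _).trans (h α hα)

/-- **The size of the values of a rational function at rational points** -/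
theorem value_le {A B : ℤ[X]} (hB : B ≠ 0) {κ : ℕ} (hdeg : A.natDegree ≤ B.natDegree + κ)
    (hirr : ∀ α : ℝ, Irrational α → 2 * (B.map (Int.castRingHom ℝ)).rootMultiplicity α ≤ κ)
    (hrat : ∀ α : ℝ, ¬ Irrational α → (B.map (Int.castRingHom ℝ)).rootMultiplicity α ≤ κ)
    {ε : ℝ} (hε : 0 < ε) :
    ∃ C : ℝ, 0 < C ∧ ∀ t : ℚ, aeval t B ≠ 0 →
      |((aeval t A : ℚ) : ℝ)| ≤ C * (ht t : ℝ) ^ (κ + ε) * |((aeval t B : ℚ) : ℝ)| := by
  obtain ⟨A', hA'⟩ : ∃ A', A' = A.map (Int.castRingHom ℝ) := ⟨_, rfl⟩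
  obtain ⟨B', hB'⟩ : ∃ B', B' = B.map (Int.castRingHom ℝ) := ⟨_, rfl⟩
  have hinj : Function.Injective (Int.castRingHom ℝ) := RingHom.injective_int _
  have hB0 : B' ≠ 0 := by rw [hB']; exact (Polynomial.map_ne_zero_iff hinj).2 hB
  have hdeg' : A'.natDegree ≤ B'.natDegree + κ := by
    rw [hA', hB', natDegree_map_eq_of_injective hinj, natDegree_map_eq_of_injective hinj]
    exact hdeg
  have hev : ∀ (P : ℤ[X]) (t : ℚ), ((aeval t P : ℚ) : ℝ) = (P.map (Int.castRingHom ℝ)).eval (t : ℝ) := by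
    intro P t
    rw [eval_map, ← algebraMap_int_eq, ← aeval_def]
    have := aeval_algebraMap_apply ℝ t P
    simpa using this.symm
  rw [← hB'] at hirr hrat
  choose δ C hδ hC hnear using fun α : ℝ => near_root A' hB0 α
  have halg : ∀ α : ℝ, B'.IsRoot α → IsAlgebraic ℚ α := by
    intro α hα
    refine ⟨B.map (Int.castRingHom ℚ), (Polynomial.map_ne_zero_iff (RingHom.injective_int _)).2 hB, ?_⟩
    have e1 : (algebraMap ℚ ℝ).comp (Int.castRingHom ℚ) = Int.castRingHom ℝ := RingHom.ext_int _ _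
    rw [aeval_def, eval₂_map, e1]
    rw [hB', IsRoot, eval_map] at hα
    exact hα
  have happ : ∀ α : ℝ, ∃ c : ℝ, 0 < c ∧ (B'.IsRoot α → ∀ t : ℚ, (t : ℝ) ≠ α →
      c ≤ |(t : ℝ) - α| ^ (B'.rootMultiplicity α) * (ht t : ℝ) ^ (κ + ε)) := by
    intro α
    by_cases hα : B'.IsRoot α
    · obtain ⟨c, hc, h⟩ := root_approx (halg α hα) (B'.rootMultiplicity α) κ (hirr α) (hrat α) hε
      exact ⟨c, hc, fun _ => h⟩
    · exact ⟨1, one_pos, fun h => (hα h).elim⟩
  choose c hc happ using happ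
  obtain ⟨δ₀, hδ₀, hδm⟩ := min_finset B'.roots.toFinset δ (fun α _ => hδ α)
  obtain ⟨c₀, hc₀, hcm⟩ := min_finset B'.roots.toFinset (fun α => c α / C α)
    (fun α _ => div_pos (hc α) (hC α))
  obtain ⟨C₁, hC₁, hfar⟩ := far hB0 hdeg' hδ₀
  refine ⟨C₁ * 2 ^ κ + 1 / c₀, by positivity, fun t ht0 => ?_⟩
  rw [hev A, hev B, ← hA', ← hB']
  have hBt : B'.eval (t : ℝ) ≠ 0 := by
    rw [hB', ← hev]; exact_mod_cast ht0
  have hH1 : (1 : ℝ) ≤ ht t := by exact_mod_cast one_le_ht t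
  have hH0 : (0 : ℝ) < ht t := by linarith
  by_cases hf : ∀ α : ℝ, B'.IsRoot α → δ₀ ≤ |(t : ℝ) - α|
  · have h1 := hfar t hf
    have h2 : 1 + |(t : ℝ)| ≤ 2 * ht t := by
      have h3 : |(t : ℝ)| ≤ ht t := by
        have e2 : (t : ℝ) = t.num / t.den := by exact_mod_cast (Rat.num_div_den t).symm
        have hd1 : (1 : ℝ) ≤ t.den := by exact_mod_cast t.den_pos
        rw [e2, abs_div, abs_of_pos (by linarith : (0 : ℝ) < t.den), div_le_iff₀ (by linarith)]
        have h4 : |(t.num : ℝ)| ≤ ht t := by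
          have h3 : ((t.num.natAbs : ℕ) : ℝ) = |(t.num : ℝ)| := by
            rw [Nat.cast_natAbs]; push_cast; rfl
          rw [← h3]; exact_mod_cast (le_max_left _ _ : t.num.natAbs ≤ ht t)
        nlinarith
      linarith
    have h3 : (1 + |(t : ℝ)|) ^ κ ≤ 2 ^ κ * (ht t : ℝ) ^ ((κ : ℝ) + ε) := by
      calc (1 + |(t : ℝ)|) ^ κ ≤ (2 * ht t) ^ κ := pow_le_pow_left₀ (by positivity) h2 _
        _ = 2 ^ κ * (ht t : ℝ) ^ (κ : ℝ) := by rw [mul_pow, Real.rpow_natCast]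
        _ ≤ _ := mul_le_mul_of_nonneg_left
          (Real.rpow_le_rpow_of_exponent_le hH1 (by linarith)) (by positivity)
    calc |A'.eval (t : ℝ)| ≤ C₁ * (1 + |(t : ℝ)|) ^ κ * |B'.eval (t : ℝ)| := h1
      _ ≤ C₁ * (2 ^ κ * (ht t : ℝ) ^ ((κ : ℝ) + ε)) * |B'.eval (t : ℝ)| := by gcongr
      _ ≤ C₁ * (2 ^ κ * (ht t : ℝ) ^ ((κ : ℝ) + ε)) * |B'.eval (t : ℝ)| +
          1 / c₀ * (ht t : ℝ) ^ ((κ : ℝ) + ε) * |B'.eval (t : ℝ)| :=
            le_add_of_nonneg_right (by positivity)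
      _ = _ := by ring
  · push Not at hf
    obtain ⟨α, hα, hlt⟩ := hf
    have hαm : α ∈ B'.roots.toFinset := by
      rw [Multiset.mem_toFinset, mem_roots hB0]; exact hα
    have htα : (t : ℝ) ≠ α := by
      intro h; apply hBt; rw [h]; exact hα
    have h1 := hnear α t (hlt.trans_le (hδm α hαm))
    have h2 := happ α hα t htα
    have h3 := hcm α hαm
    obtain ⟨T, hT⟩ : ∃ T, T = |(t : ℝ) - α| ^ (B'.rootMultiplicity α) := ⟨_, rfl⟩
    obtain ⟨H, hH⟩ : ∃ H, H = (ht t : ℝ) ^ ((κ : ℝ) + ε) := ⟨_, rfl⟩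
    rw [← hT] at h1 h2
    rw [← hH] at h2 ⊢
    have hH0 : 0 < H := by rw [hH]; positivity
    have hT0 : 0 < T := by
      rw [hT]
      have : 0 < |(t : ℝ) - α| := abs_pos.2 (sub_ne_zero.2 htα)
      positivity
    have h4 : c₀ * C α ≤ T * H := by
      rw [le_div_iff₀ (hC α)] at h3
      exact h3.trans h2
    have h5 : c₀ * |A'.eval (t : ℝ)| ≤ H * |B'.eval (t : ℝ)| := by
      have h6 : c₀ * C α * (T * |A'.eval (t : ℝ)|) ≤ T * H * (C α * |B'.eval (t : ℝ)|) :=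
        mul_le_mul h4 h1 (by positivity) (by positivity)
      have h7 : (c₀ * |A'.eval (t : ℝ)|) * (C α * T) ≤ (H * |B'.eval (t : ℝ)|) * (C α * T) := by
        calc _ = c₀ * C α * (T * |A'.eval (t : ℝ)|) := by ring
          _ ≤ _ := h6
          _ = _ := by ring
      exact le_of_mul_le_mul_right h7 (mul_pos (hC α) hT0)
    have h6 : |A'.eval (t : ℝ)| ≤ 1 / c₀ * H * |B'.eval (t : ℝ)| := by
      rw [mul_assoc, one_div, ← div_eq_inv_mul, le_div_iff₀ hc₀]
      linarith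
    calc |A'.eval (t : ℝ)| ≤ 1 / c₀ * H * |B'.eval (t : ℝ)| := h6
      _ ≤ C₁ * 2 ^ κ * H * |B'.eval (t : ℝ)| + 1 / c₀ * H * |B'.eval (t : ℝ)| :=
          le_add_of_nonneg_left (by positivity)
      _ = _ := by ring

end Pool.Agent.H574.Thin
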