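import Mathlib
import Pool.Agent.H574.Thin.Approx

/-!
# Hall's inequality on thin sets
-/

set_option autoImplicit false

namespace Pool.Agent.H574.Thin

open Polynomial Finset

/-- the forms at a solution of `x ^ 3 B (t) = k A (t)` -/
theorem forms_le {R NA NB X k : ℤ} (hR : R ≠ 0) (hk : k ≠ 0) (hNB : NB ≠ 0)
    (hg : ∀ g : ℤ, g ∣ NA → g ∣ NB → g ∣ R) (h : X * NB = k * NA) :
    |NA| ≤ |R| * |X| ∧ |NB| ≤ |R| * |k| := by
  obtain ⟨g, hgd⟩ : ∃ g : ℤ, g = Int.gcd NA NB := ⟨_, rfl⟩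
  have hgA : g ∣ NA := hgd ▸ Int.gcd_dvd_left _ _
  have hgB : g ∣ NB := hgd ▸ Int.gcd_dvd_right _ _
  have hgR : |g| ≤ |R| := by
    have := Int.le_of_dvd (abs_pos.2 hR) ((abs_dvd_abs _ _).2 (hg g hgA hgB))
    exact this
  have hg0 : 0 < g := by
    rw [hgd]
    exact_mod_cast Int.gcd_pos_of_ne_zero_right _ hNB
  obtain ⟨a, ha⟩ := hgA
  obtain ⟨b, hb⟩ := hgB
  have hb0 : b ≠ 0 := by rintro rfl; apply hNB; rw [hb]; ring
  have hcop : IsCoprime a b := by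
    have h1 : NA / g = a := by rw [ha]; exact Int.mul_ediv_cancel_left _ hg0.ne'
    have h2 : NB / g = b := by rw [hb]; exact Int.mul_ediv_cancel_left _ hg0.ne'
    rw [← h1, ← h2, Int.isCoprime_iff_gcd_eq_one, hgd]
    exact Int.gcd_ediv_gcd_ediv_gcd (Int.gcd_pos_of_ne_zero_right _ hNB)
  have h3 : X * b = k * a := by
    have : g * (X * b) = g * (k * a) := by rw [ha, hb] at h; linear_combination h
    exact mul_left_cancel₀ hg0.ne' this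
  have h4 : b ∣ k := hcop.symm.dvd_of_dvd_mul_right ⟨X, by rw [← h3]; ring⟩
  have h5 : a ∣ X := hcop.dvd_of_dvd_mul_right ⟨k, by rw [h3]; ring⟩
  have h6 : |b| ≤ |k| := Int.le_of_dvd (abs_pos.2 hk) ((abs_dvd_abs _ _).2 h4)
  have h7 : |a| ≤ |X| := by
    rcases eq_or_ne X 0 with h0 | h0
    · rw [h0, zero_mul] at h3
      have : a = 0 := by
        rcases mul_eq_zero.1 h3.symm with h8 | h8
        · exact (hk h8).elim
        · exact h8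
      rw [this, h0]
    · exact Int.le_of_dvd (abs_pos.2 h0) ((abs_dvd_abs _ _).2 h5)
  rw [ha, hb, abs_mul, abs_mul]
  exact ⟨mul_le_mul hgR h7 (abs_nonneg _) (abs_nonneg _),
    mul_le_mul hgR h6 (abs_nonneg _) (abs_nonneg _)⟩

/-- **Hall's inequality on the thin set attached to `A / B`** -/
theorem hall_bound {A B : ℤ[X]} {κ d : ℕ} (hB : B ≠ 0)
    (hcop : IsCoprime (A.map (Int.castRingHom ℚ)) (B.map (Int.castRingHom ℚ)))
    (hAd : A.natDegree ≤ d) (hBd : B.natDegree ≤ d) (hd : A.coeff d ≠ 0 ∨ B.coeff d ≠ 0)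
    (hd0 : 0 < d) (hdeg : A.natDegree ≤ B.natDegree + κ)
    (hirr : ∀ α : ℝ, Irrational α → 2 * (B.map (Int.castRingHom ℝ)).rootMultiplicity α ≤ κ)
    (hrat : ∀ α : ℝ, ¬ Irrational α → (B.map (Int.castRingHom ℝ)).rootMultiplicity α ≤ κ)
    {ε : ℝ} (hε : 0 < ε) :
    ∃ C : ℝ, 0 < C ∧ ∀ x k : ℤ, k ≠ 0 → ∀ t : ℚ, aeval t B ≠ 0 →
      (x : ℚ) ^ 3 * aeval t B = k * aeval t A →
      |(x : ℝ)| ^ (3 * (1 - (κ : ℝ) / d) - ε) ≤ C * |(k : ℝ)| := by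
  have hdR : (0 : ℝ) < d := by exact_mod_cast hd0
  obtain ⟨R, c, hR, hc, hform⟩ := height_le hAd hBd hd hcop
  obtain ⟨C₁, hC₁, hval⟩ := value_le hB hdeg hirr hrat (ε := ε * d / 3) (by positivity)
  obtain ⟨r, hr⟩ : ∃ r : ℝ, r = |(R : ℝ)| / c := ⟨_, rfl⟩
  have hr0 : 0 < r := by
    rw [hr]
    have : 0 < |(R : ℝ)| := abs_pos.2 (by exact_mod_cast hR)
    positivity
  obtain ⟨σ, hσ⟩ : ∃ σ : ℝ, σ = κ + ε * d / 3 := ⟨_, rfl⟩
  have hσ0 : 0 < σ := by rw [hσ]; positivity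
  refine ⟨C₁ * r ^ (σ / d) + 1, by positivity, fun x k hk t ht0 heq => ?_⟩
  obtain ⟨hg, hH⟩ := hform t
  have hb0 : (t.den : ℤ) ≠ 0 := by exact_mod_cast t.den_ne_zero
  have hbq : ((t.den : ℤ) : ℚ) ≠ 0 := by exact_mod_cast hb0
  have htq : ((t.num : ℚ) / ((t.den : ℤ) : ℚ)) = t := by exact_mod_cast Rat.num_div_den t
  have eA := hom_eq hAd t.num hb0
  have eB := hom_eq hBd t.num hb0
  rw [htq] at eA eB
  have hNB : hom B d t.num t.den ≠ 0 := by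
    intro h0
    rw [h0] at eB
    have : ((t.den : ℤ) : ℚ) ^ d * aeval t B ≠ 0 := mul_ne_zero (pow_ne_zero _ hbq) ht0
    exact this (by rw [← eB]; simp)
  have hZ : x ^ 3 * hom B d t.num t.den = k * hom A d t.num t.den := by
    have h1 : ((x ^ 3 * hom B d t.num t.den : ℤ) : ℚ) = ((k * hom A d t.num t.den : ℤ) : ℚ) := by
      push_cast
      rw [eA, eB]
      linear_combination ((t.den : ℤ) : ℚ) ^ d * heq
    exact_mod_cast h1
  obtain ⟨h1, h2⟩ := forms_le hR hk hNB hg hZ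
  have h1R : |(hom A d t.num t.den : ℝ)| ≤ |(R : ℝ)| * |(x : ℝ)| ^ 3 := by
    rw [abs_pow] at h1
    exact_mod_cast h1
  have h2R : |(hom B d t.num t.den : ℝ)| ≤ |(R : ℝ)| * |(k : ℝ)| := by exact_mod_cast h2
  have hk1 : (1 : ℝ) ≤ |(k : ℝ)| := by
    have : (1 : ℤ) ≤ |k| := Int.one_le_abs hk
    exact_mod_cast this
  have hexp : 3 * (1 - (κ : ℝ) / d) - ε ≤ 3 := by
    have : 0 ≤ (κ : ℝ) / d := by positivity
    linarith
  -- the values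
  have hxk : |(x : ℝ)| ^ 3 ≤ C₁ * |(k : ℝ)| * (ht t : ℝ) ^ σ := by
    have h3 := hval t ht0
    rw [← hσ] at h3
    have hBt : (0 : ℝ) < |((aeval t B : ℚ) : ℝ)| := abs_pos.2 (by exact_mod_cast ht0)
    have h4 : |(x : ℝ)| ^ 3 * |((aeval t B : ℚ) : ℝ)| = |(k : ℝ)| * |((aeval t A : ℚ) : ℝ)| := by
      rw [← abs_pow, ← abs_mul, ← abs_mul]
      congr 1
      exact_mod_cast heq
    have h5 : |(x : ℝ)| ^ 3 * |((aeval t B : ℚ) : ℝ)| ≤
        C₁ * |(k : ℝ)| * (ht t : ℝ) ^ σ * |((aeval t B : ℚ) : ℝ)| := by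
      rw [h4]
      calc |(k : ℝ)| * |((aeval t A : ℚ) : ℝ)|
          ≤ |(k : ℝ)| * (C₁ * (ht t : ℝ) ^ σ * |((aeval t B : ℚ) : ℝ)|) :=
            mul_le_mul_of_nonneg_left h3 (abs_nonneg _)
        _ = _ := by ring
    exact le_of_mul_le_mul_right h5 hBt
  rcases eq_or_ne x 0 with hx0 | hx0
  · rw [hx0, Int.cast_zero, abs_zero]
    calc (0 : ℝ) ^ (3 * (1 - (κ : ℝ) / d) - ε) ≤ 1 := Real.zero_rpow_le_one _
      _ ≤ |(k : ℝ)| := hk1
      _ ≤ _ := le_mul_of_one_le_left (by positivity) (by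
        have : 0 < C₁ * r ^ (σ / d) := by positivity
        linarith)
  have hx1 : (1 : ℝ) ≤ |(x : ℝ)| := by
    have : (1 : ℤ) ≤ |x| := Int.one_le_abs hx0
    exact_mod_cast this
  have hxpos : 0 < |(x : ℝ)| := by linarith
  rcases le_total (|(x : ℝ)| ^ 3) |(k : ℝ)| with hle | hle
  · calc |(x : ℝ)| ^ (3 * (1 - (κ : ℝ) / d) - ε) ≤ |(x : ℝ)| ^ (3 : ℝ) :=
          Real.rpow_le_rpow_of_exponent_le hx1 hexp
      _ = |(x : ℝ)| ^ 3 := by exact_mod_cast Real.rpow_natCast |(x : ℝ)| 3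
      _ ≤ |(k : ℝ)| := hle
      _ ≤ _ := le_mul_of_one_le_left (by positivity) (by
        have : 0 < C₁ * r ^ (σ / d) := by positivity
        linarith)
  · have hHd : (ht t : ℝ) ^ d ≤ r * |(x : ℝ)| ^ 3 := by
      have h6 : c * (ht t : ℝ) ^ d ≤ |(R : ℝ)| * |(x : ℝ)| ^ 3 := by
        refine hH.trans (max_le h1R (h2R.trans ?_))
        exact mul_le_mul_of_nonneg_left hle (abs_nonneg _)
      rw [hr, div_mul_eq_mul_div, le_div_iff₀ hc]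
      linarith
    have hH1 : (1 : ℝ) ≤ ht t := by exact_mod_cast one_le_ht t
    have hH0 : (0 : ℝ) < ht t := by linarith
    have hHσ : (ht t : ℝ) ^ σ ≤ r ^ (σ / d) * |(x : ℝ)| ^ (3 * (κ : ℝ) / d + ε) := by
      have e1 : (ht t : ℝ) ^ σ = ((ht t : ℝ) ^ d) ^ (σ / d) := by
        rw [← Real.rpow_natCast, ← Real.rpow_mul hH0.le]
        congr 1; field_simp
      have e2 : |(x : ℝ)| ^ (3 * (κ : ℝ) / d + ε) = (|(x : ℝ)| ^ 3) ^ (σ / d) := by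
        rw [← Real.rpow_natCast, ← Real.rpow_mul hxpos.le]
        congr 1; rw [hσ]; push_cast; field_simp
      rw [e1, e2, ← Real.mul_rpow hr0.le (by positivity)]
      exact Real.rpow_le_rpow (by positivity) hHd (by positivity)
    have h7 : |(x : ℝ)| ^ 3 ≤ C₁ * |(k : ℝ)| * (r ^ (σ / d) * |(x : ℝ)| ^ (3 * (κ : ℝ) / d + ε)) :=
      hxk.trans (mul_le_mul_of_nonneg_left hHσ (by positivity))
    have e3 : |(x : ℝ)| ^ 3 = |(x : ℝ)| ^ (3 * (1 - (κ : ℝ) / d) - ε) *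
        |(x : ℝ)| ^ (3 * (κ : ℝ) / d + ε) := by
      rw [← Real.rpow_add hxpos, ← Real.rpow_natCast]
      congr 1; push_cast; field_simp; ring
    have h8 : |(x : ℝ)| ^ (3 * (1 - (κ : ℝ) / d) - ε) * |(x : ℝ)| ^ (3 * (κ : ℝ) / d + ε) ≤
        C₁ * r ^ (σ / d) * |(k : ℝ)| * |(x : ℝ)| ^ (3 * (κ : ℝ) / d + ε) := by
      rw [← e3]
      calc _ ≤ _ := h7
        _ = _ := by ring
    have h9 := le_of_mul_le_mul_right h8 (by positivity)
    have h10 : 0 ≤ |(k : ℝ)| := abs_nonneg _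
    linarith

/-- The same with the strict inequality of the problem. -/
theorem hall_strict {A B : ℤ[X]} {κ d : ℕ} (hB : B ≠ 0)
    (hcop : IsCoprime (A.map (Int.castRingHom ℚ)) (B.map (Int.castRingHom ℚ)))
    (hAd : A.natDegree ≤ d) (hBd : B.natDegree ≤ d) (hd : A.coeff d ≠ 0 ∨ B.coeff d ≠ 0)
    (hd0 : 0 < d) (hdeg : A.natDegree ≤ B.natDegree + κ)
    (hirr : ∀ α : ℝ, Irrational α → 2 * (B.map (Int.castRingHom ℝ)).rootMultiplicity α ≤ κ)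
    (hrat : ∀ α : ℝ, ¬ Irrational α → (B.map (Int.castRingHom ℝ)).rootMultiplicity α ≤ κ)
    {ε : ℝ} (hε : 0 < ε) :
    ∃ C : ℝ, 0 < C ∧ ∀ x y : ℤ, y ^ 2 ≠ x ^ 3 →
      (∃ t : ℚ, aeval t B ≠ 0 ∧ (x : ℚ) ^ 3 * aeval t B = (y ^ 2 - x ^ 3) * aeval t A) →
      C * |(x : ℝ)| ^ (3 * (1 - (κ : ℝ) / d) - ε) < |(y : ℝ) ^ 2 - (x : ℝ) ^ 3| := by
  obtain ⟨C, hC, h⟩ := hall_bound hB hcop hAd hBd hd hd0 hdeg hirr hrat hε
  refine ⟨1 / (2 * C), by positivity, ?_⟩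
  rintro x y hxy ⟨t, ht0, ht1⟩
  have hk : y ^ 2 - x ^ 3 ≠ 0 := sub_ne_zero.2 hxy
  have h1 := h x (y ^ 2 - x ^ 3) hk t ht0 (by push_cast; exact ht1)
  push_cast at h1
  have h2 : 0 < |(y : ℝ) ^ 2 - (x : ℝ) ^ 3| := by
    rw [abs_pos]; exact_mod_cast hk
  calc 1 / (2 * C) * |(x : ℝ)| ^ (3 * (1 - (κ : ℝ) / d) - ε)
      ≤ 1 / (2 * C) * (C * |(y : ℝ) ^ 2 - (x : ℝ) ^ 3|) :=
        mul_le_mul_of_nonneg_left h1 (by positivity)
    _ = |(y : ℝ) ^ 2 - (x : ℝ) ^ 3| / 2 := by field_simp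
    _ < _ := by linarith

end Pool.Agent.H574.Thin
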