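import Mathlib
import Pool.Agent.H574.Thin.Main

/-!
# Hall's inequality without `ε` for the thin set of a monic polynomial over the parameter
-/

set_option autoImplicit false

namespace Pool.Agent.H574.Thin

open Polynomial Finset

/-- `A` is monic of degree `N + 1` with `A (0) ≠ 0`; if `x ^ 3 / k = - A (t) / (1728 t)` then
`|x| ^ (3 / (N + 1)) ≤ C |k|`. -/
theorem monic_bound {A : ℤ[X]} {N : ℕ} (hN : 1 ≤ N) (hA : A.Monic) (hdeg : A.natDegree = N + 1)
    (h0 : A.coeff 0 ≠ 0) :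
    ∃ C : ℝ, 1 ≤ C ∧ ∀ x k : ℤ, k ≠ 0 → ∀ t : ℚ, t ≠ 0 →
      (x : ℚ) ^ 3 * (-1728 * t) = k * aeval t A →
      |(x : ℝ)| ^ (3 / ((N : ℝ) + 1)) ≤ C * |(k : ℝ)| := by
  have hBdeg : (C (-1728) * X : ℤ[X]).natDegree = 1 := natDegree_C_mul_X _ (by norm_num)
  have hcop : IsCoprime (A.map (Int.castRingHom ℚ))
      ((C (-1728) * X : ℤ[X]).map (Int.castRingHom ℚ)) := by
    have h1 : (C (-1728) * X : ℤ[X]).map (Int.castRingHom ℚ) = C (-1728) * X := by
      rw [Polynomial.map_mul, Polynomial.map_C, Polynomial.map_X]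
      norm_num
    rw [h1]
    have h2 : IsCoprime (A.map (Int.castRingHom ℚ)) (C (-1728 : ℚ)) := by
      refine ⟨0, C (-1728 : ℚ)⁻¹, ?_⟩
      rw [zero_mul, zero_add, ← C_mul]
      norm_num
    have h3 : IsCoprime (A.map (Int.castRingHom ℚ)) X := by
      refine (irreducible_X.coprime_iff_not_dvd.2 ?_).symm
      rw [X_dvd_iff, coeff_map]
      simpa using h0
    exact h2.mul_right h3
  obtain ⟨R, c, hR, hc, hform⟩ := height_le (A := A) (B := C (-1728) * X) (d := N + 1) hdeg.le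
    (by rw [hBdeg]; omega) (Or.inl (by rw [← hdeg, hA.coeff_natDegree]; exact one_ne_zero)) hcop
  obtain ⟨C₁, hC₁, hval⟩ := abs_hom_le A (N + 1)
  obtain ⟨r, hr⟩ : ∃ r : ℝ, r = |(R : ℝ)| / c := ⟨_, rfl⟩
  have hr0 : 0 < r := by
    rw [hr]
    have : 0 < |(R : ℝ)| := abs_pos.2 (by exact_mod_cast hR)
    positivity
  have hN1 : (0 : ℝ) < (N : ℝ) + 1 := by positivity
  refine ⟨C₁ * r ^ ((N : ℝ) / (N + 1)) + 1, by
    have : 0 < C₁ * r ^ ((N : ℝ) / (N + 1)) := by positivity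
    linarith, fun x k hk t ht0 heq => ?_⟩
  obtain ⟨hg, hH⟩ := hform t
  have hb0 : (t.den : ℤ) ≠ 0 := by exact_mod_cast t.den_ne_zero
  have hbq : ((t.den : ℤ) : ℚ) ≠ 0 := by exact_mod_cast hb0
  have htq : ((t.num : ℚ) / ((t.den : ℤ) : ℚ)) = t := by exact_mod_cast Rat.num_div_den t
  have eA := hom_eq hdeg.le t.num hb0
  have eB := hom_eq (P := C (-1728) * X) (d := N + 1) (by rw [hBdeg]; omega) t.num hb0
  rw [htq] at eA eB
  have eB2 : aeval t (C (-1728) * X : ℤ[X]) = -1728 * t := by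
    rw [map_mul, aeval_C, aeval_X]
    norm_num
  rw [eB2] at eB
  have hnumne : t.num ≠ 0 := Rat.num_ne_zero.2 ht0
  have hNBval : hom (C (-1728) * X) (N + 1) t.num t.den = -1728 * t.num * t.den ^ N := by
    have h1 : ((hom (C (-1728) * X) (N + 1) t.num t.den : ℤ) : ℚ) =
        ((-1728 * t.num * (t.den : ℤ) ^ N : ℤ) : ℚ) := by
      rw [eB]
      push_cast
      have e1 : (t.num : ℚ) = t * t.den := (Rat.mul_den_eq_num t).symm
      rw [e1, pow_succ]
      ring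
    exact_mod_cast h1
  have hNB : hom (C (-1728) * X) (N + 1) t.num t.den ≠ 0 := by
    rw [hNBval]
    exact mul_ne_zero (mul_ne_zero (by norm_num) hnumne) (pow_ne_zero _ hb0)
  have hZ : x ^ 3 * hom (C (-1728) * X) (N + 1) t.num t.den = k * hom A (N + 1) t.num t.den := by
    have h1 : ((x ^ 3 * hom (C (-1728) * X) (N + 1) t.num t.den : ℤ) : ℚ) =
        ((k * hom A (N + 1) t.num t.den : ℤ) : ℚ) := by
      push_cast
      rw [eA, eB]
      linear_combination ((t.den : ℤ) : ℚ) ^ (N + 1) * heq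
    exact_mod_cast h1
  obtain ⟨h1, h2⟩ := forms_le hR hk hNB hg hZ
  have h1R : |(hom A (N + 1) t.num t.den : ℝ)| ≤ |(R : ℝ)| * |(x : ℝ)| ^ 3 := by
    rw [abs_pow] at h1
    exact_mod_cast h1
  have h2R : |(hom (C (-1728) * X) (N + 1) t.num t.den : ℝ)| ≤ |(R : ℝ)| * |(k : ℝ)| := by
    exact_mod_cast h2
  have hk1 : (1 : ℝ) ≤ |(k : ℝ)| := by
    have : (1 : ℤ) ≤ |k| := Int.one_le_abs hk
    exact_mod_cast this
  have hH1 : (1 : ℝ) ≤ ht t := by exact_mod_cast one_le_ht t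
  have hH0 : (0 : ℝ) < ht t := by linarith
  have hna : |(t.num : ℝ)| ≤ ht t := by
    have h3 : ((t.num.natAbs : ℕ) : ℝ) = |(t.num : ℝ)| := by
      rw [Nat.cast_natAbs]; push_cast; rfl
    rw [← h3]; exact_mod_cast (le_max_left _ _ : t.num.natAbs ≤ ht t)
  have hnb : |((t.den : ℤ) : ℝ)| ≤ ht t := by
    rw [Int.cast_natCast, abs_of_nonneg (by positivity)]
    exact_mod_cast (le_max_right _ _ : t.den ≤ ht t)
  have ha1 : (1 : ℝ) ≤ |(t.num : ℝ)| := by
    have : (1 : ℤ) ≤ |t.num| := Int.one_le_abs hnumne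
    exact_mod_cast this
  have hb1 : (1 : ℝ) ≤ (t.den : ℝ) := by exact_mod_cast t.den_pos
  -- the product of the numerator and of the power of the denominator is at least the height
  have hprod : (ht t : ℝ) ≤ |(t.num : ℝ)| * (t.den : ℝ) ^ N := by
    rcases le_total t.num.natAbs t.den with hle | hle
    · have h3 : ht t = t.den := max_eq_right hle
      rw [h3]
      calc (t.den : ℝ) ≤ (t.den : ℝ) ^ N := le_self_pow₀ hb1 (by omega)
        _ ≤ _ := le_mul_of_one_le_left (by positivity) ha1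
    · have h3 : ht t = t.num.natAbs := max_eq_left hle
      rw [h3]
      have h4 : ((t.num.natAbs : ℕ) : ℝ) = |(t.num : ℝ)| := by
        rw [Nat.cast_natAbs]; push_cast; rfl
      rw [h4]
      exact le_mul_of_one_le_right (by positivity) (one_le_pow₀ hb1)
  have hxk : |(x : ℝ)| ^ 3 ≤ C₁ * |(k : ℝ)| * (ht t : ℝ) ^ N := by
    have h3 : |(x : ℝ)| ^ 3 * |(hom (C (-1728) * X) (N + 1) t.num t.den : ℝ)| =
        |(k : ℝ)| * |(hom A (N + 1) t.num t.den : ℝ)| := by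
      rw [← abs_pow, ← abs_mul, ← abs_mul]
      congr 1
      exact_mod_cast hZ
    have h4 : |(hom (C (-1728) * X) (N + 1) t.num t.den : ℝ)| =
        1728 * (|(t.num : ℝ)| * (t.den : ℝ) ^ N) := by
      rw [hNBval]
      push_cast
      rw [abs_mul, abs_mul, abs_pow, abs_of_pos (by positivity : (0 : ℝ) < t.den)]
      norm_num
      ring
    have h5 := hval t.num t.den (ht t) hna hnb
    have h6 : |(x : ℝ)| ^ 3 * (ht t : ℝ) ≤ C₁ * |(k : ℝ)| * (ht t : ℝ) ^ N * ht t := by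
      calc |(x : ℝ)| ^ 3 * (ht t : ℝ) ≤ |(x : ℝ)| ^ 3 * (1728 * (|(t.num : ℝ)| * (t.den : ℝ) ^ N)) := by
            refine mul_le_mul_of_nonneg_left ?_ (by positivity)
            have : 0 < |(t.num : ℝ)| * (t.den : ℝ) ^ N := lt_of_lt_of_le hH0 hprod
            linarith
        _ = |(k : ℝ)| * |(hom A (N + 1) t.num t.den : ℝ)| := by rw [← h4, h3]
        _ ≤ |(k : ℝ)| * (C₁ * (ht t : ℝ) ^ (N + 1)) := mul_le_mul_of_nonneg_left h5 (abs_nonneg _)
        _ = _ := by ring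
    exact le_of_mul_le_mul_right h6 hH0
  have hexp3 : 3 / ((N : ℝ) + 1) ≤ 3 := by
    rw [div_le_iff₀ hN1]
    have : (0 : ℝ) ≤ N := by positivity
    linarith
  have hexp0 : 0 < 3 / ((N : ℝ) + 1) := by positivity
  rcases eq_or_ne x 0 with hx0 | hx0
  · rw [hx0, Int.cast_zero, abs_zero, Real.zero_rpow hexp0.ne']
    positivity
  have hx1 : (1 : ℝ) ≤ |(x : ℝ)| := by
    have : (1 : ℤ) ≤ |x| := Int.one_le_abs hx0
    exact_mod_cast this
  have hxpos : 0 < |(x : ℝ)| := by linarith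
  rcases le_total (|(x : ℝ)| ^ 3) |(k : ℝ)| with hle | hle
  · calc |(x : ℝ)| ^ (3 / ((N : ℝ) + 1)) ≤ |(x : ℝ)| ^ (3 : ℝ) :=
          Real.rpow_le_rpow_of_exponent_le hx1 hexp3
      _ = |(x : ℝ)| ^ 3 := by exact_mod_cast Real.rpow_natCast |(x : ℝ)| 3
      _ ≤ |(k : ℝ)| := hle
      _ ≤ _ := le_mul_of_one_le_left (by positivity) (by
        have : 0 < C₁ * r ^ ((N : ℝ) / (N + 1)) := by positivity
        linarith)
  · have hHd : (ht t : ℝ) ^ (N + 1) ≤ r * |(x : ℝ)| ^ 3 := by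
      have h6 : c * (ht t : ℝ) ^ (N + 1) ≤ |(R : ℝ)| * |(x : ℝ)| ^ 3 := by
        refine hH.trans (max_le h1R (h2R.trans ?_))
        exact mul_le_mul_of_nonneg_left hle (abs_nonneg _)
      rw [hr, div_mul_eq_mul_div, le_div_iff₀ hc]
      linarith
    have hHσ : (ht t : ℝ) ^ N ≤ r ^ ((N : ℝ) / (N + 1)) * |(x : ℝ)| ^ (3 * (N : ℝ) / (N + 1)) := by
      have e1 : (ht t : ℝ) ^ N = ((ht t : ℝ) ^ (N + 1)) ^ ((N : ℝ) / (N + 1)) := by
        rw [← Real.rpow_natCast, ← Real.rpow_natCast, ← Real.rpow_mul hH0.le]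
        congr 1; push_cast; field_simp
      have e2 : |(x : ℝ)| ^ (3 * (N : ℝ) / (N + 1)) = (|(x : ℝ)| ^ 3) ^ ((N : ℝ) / (N + 1)) := by
        rw [← Real.rpow_natCast, ← Real.rpow_mul hxpos.le]
        congr 1; push_cast; field_simp
      rw [e1, e2, ← Real.mul_rpow hr0.le (by positivity)]
      exact Real.rpow_le_rpow (by positivity) hHd (by positivity)
    have h7 : |(x : ℝ)| ^ 3 ≤
        C₁ * |(k : ℝ)| * (r ^ ((N : ℝ) / (N + 1)) * |(x : ℝ)| ^ (3 * (N : ℝ) / (N + 1))) :=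
      hxk.trans (mul_le_mul_of_nonneg_left hHσ (by positivity))
    have e3 : |(x : ℝ)| ^ 3 = |(x : ℝ)| ^ (3 / ((N : ℝ) + 1)) *
        |(x : ℝ)| ^ (3 * (N : ℝ) / (N + 1)) := by
      rw [← Real.rpow_add hxpos, ← Real.rpow_natCast]
      congr 1; push_cast; field_simp; ring
    have h8 : |(x : ℝ)| ^ (3 / ((N : ℝ) + 1)) * |(x : ℝ)| ^ (3 * (N : ℝ) / (N + 1)) ≤
        C₁ * r ^ ((N : ℝ) / (N + 1)) * |(k : ℝ)| * |(x : ℝ)| ^ (3 * (N : ℝ) / (N + 1)) := by
      rw [← e3]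
      calc _ ≤ _ := h7
        _ = _ := by ring
    have h9 := le_of_mul_le_mul_right h8 (by positivity)
    have h10 : 0 ≤ |(k : ℝ)| := abs_nonneg _
    linarith

end Pool.Agent.H574.Thin
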